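import Mathlib
import Pool.Agent.Zk46.NP2.Defs
import Pool.Agent.H245R3.PS_SA

/-!
# Module LS for near-palindromes: second moments of the central block by the large sieve
-/

set_option autoImplicit false

namespace Pool.Agent.Zk85.NP2

open Finset Pool.Agent.Helper112
open Pool.Agent.Zk46.NP2
open Pool.Agent.W89.PW (fr)
open Pool.Agent.H39R3.PB (ph pts ph_nonneg ph_add_int dilate coprime_b)
open Pool.Agent.H39R3.PS (EM)
open Pool.Agent.H944R3.PB (DD ph_eq)
open Pool.Agent.H245R3.PSSA (pars dilate_all)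

/-! ### digits -/

lemma sum_lt {b : ℕ} (hb : 1 ≤ b) (f : ℕ → ℕ) (n : ℕ) (hf : ∀ i < n, f i < b) :
    ∑ i ∈ range n, f i * b ^ i < b ^ n := by
  induction n with
  | zero => simp
  | succ n ih =>
    rw [sum_range_succ]
    have h1 := ih fun i hi => hf i (by omega)
    have h2 : f n + 1 ≤ b := hf n (by omega)
    have h3 : (f n + 1) * b ^ n ≤ b * b ^ n := Nat.mul_le_mul_right _ h2
    rw [pow_succ]
    nlinarith

lemma digits_eq {b : ℕ} (hb : 1 ≤ b) (f g : ℕ → ℕ) (n : ℕ) (hf : ∀ i < n, f i < b)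
    (hg : ∀ i < n, g i < b) (h : ∑ i ∈ range n, f i * b ^ i = ∑ i ∈ range n, g i * b ^ i) :
    ∀ i < n, f i = g i := by
  induction n with
  | zero => intro i hi; omega
  | succ n ih =>
    rw [sum_range_succ, sum_range_succ] at h
    have h1 := sum_lt hb f n fun i hi => hf i (by omega)
    have h2 := sum_lt hb g n fun i hi => hg i (by omega)
    have hp : 0 < b ^ n := by positivity
    have h3 : f n = g n := by
      have e1 : (∑ i ∈ range n, f i * b ^ i + f n * b ^ n) / b ^ n = f n := by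
        rw [Nat.add_mul_div_right _ _ hp, Nat.div_eq_of_lt h1, zero_add]
      have e2 : (∑ i ∈ range n, g i * b ^ i + g n * b ^ n) / b ^ n = g n := by
        rw [Nat.add_mul_div_right _ _ hp, Nat.div_eq_of_lt h2, zero_add]
      rw [← e1, ← e2, h]
    rw [h3] at h
    have h4 := ih (fun i hi => hf i (by omega)) (fun i hi => hg i (by omega)) (by omega)
    intro i hi
    rcases Nat.lt_succ_iff_lt_or_eq.1 hi with hi | rfl
    · exact h4 i hi
    · exact h3

/-- the digits of the frequency attached to `y` -/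
def del (J : ℕ) (y : ℕ → ℕ × ℕ) (i : ℕ) : ℕ :=
  if i = 0 ∨ i = J + 1 then 0 else if i ≤ J then (y (J - i)).1 + 2 * (y (J - i)).2
  else (y (i - (J + 2))).1

/-- the frequency attached to a digit vector -/
def nn (b J : ℕ) (z : Fin J → ℕ × ℕ) : ℕ := ∑ c : Fin J, ((z c).1 * fr b J c + (z c).2 * lo b J c)

/-- extension by zero -/
def ext (J : ℕ) (z : Fin J → ℕ × ℕ) (c : ℕ) : ℕ × ℕ := if h : c < J then z ⟨c, h⟩ else (0, 0)

lemma nn_eq (b J : ℕ) (z : Fin J → ℕ × ℕ) :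
    nn b J z = ∑ i ∈ range (2 * J + 2), del J (ext J z) i * b ^ i := by
  have h1 : nn b J z = ∑ c ∈ range J, ((ext J z c).1 * fr b J c + (ext J z c).2 * lo b J c) := by
    unfold nn
    rw [← Fin.sum_univ_eq_sum_range
      (fun c => (ext J z c).1 * fr b J c + (ext J z c).2 * lo b J c) J]
    apply sum_congr rfl
    intro c _
    unfold ext
    rw [dif_pos c.2]
  have h2 : 2 * J + 2 = (J + 1) + (J + 1) := by ring
  rw [h1, h2, sum_range_add, sum_range_succ' (fun i => del J (ext J z) i * b ^ i) J,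
    sum_range_succ' (fun i => del J (ext J z) (J + 1 + i) * b ^ (J + 1 + i)) J]
  have e0 : del J (ext J z) 0 = 0 := by simp [del]
  have e1 : del J (ext J z) (J + 1 + 0) = 0 := by simp [del]
  rw [e0, e1, zero_mul, add_zero, zero_mul, add_zero,
    ← sum_range_reflect (fun i => del J (ext J z) (i + 1) * b ^ (i + 1)) J, ← sum_add_distrib]
  apply sum_congr rfl
  intro c hc
  rw [mem_range] at hc
  have f1 : J - 1 - c + 1 = J - c := by omega
  have f2 : J + 1 + (c + 1) = J + c + 2 := by omega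
  have g1 : del J (ext J z) (J - c) = (ext J z c).1 + 2 * (ext J z c).2 := by
    unfold del
    rw [if_neg (by omega), if_pos (by omega), show J - (J - c) = c by omega]
  have g2 : del J (ext J z) (J + c + 2) = (ext J z c).1 := by
    unfold del
    rw [if_neg (by omega), if_neg (by omega), show J + c + 2 - (J + 2) = c by omega]
  rw [f1, f2, g1, g2]
  unfold fr lo
  ring

/-- the digit vectors -/
noncomputable def PP (b : ℕ) (t : ℕ → ℕ) (J : ℕ) : Finset (Fin J → ℕ × ℕ) :=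
  Fintype.piFinset fun c : Fin J => range (sz b t c) ×ˢ range (t c)

lemma PP_mem {b : ℕ} {t : ℕ → ℕ} {J : ℕ} {z : Fin J → ℕ × ℕ} (hz : z ∈ PP b t J) (c : Fin J) :
    (z c).1 < sz b t c ∧ (z c).2 < t c := by
  unfold PP at hz
  rw [Fintype.mem_piFinset] at hz
  have := hz c
  rw [mem_product, mem_range, mem_range] at this
  exact this

lemma ext_lt {b : ℕ} {t : ℕ → ℕ} (hb : 4 ≤ b) (ht : Ok b t) {J : ℕ} {z : Fin J → ℕ × ℕ}
    (hz : z ∈ PP b t J) (c : ℕ) : (ext J z c).1 + 2 * (ext J z c).2 < b := by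
  unfold ext
  by_cases h : c < J
  · rw [dif_pos h]
    have h1 := PP_mem hz ⟨c, h⟩
    have h2 := ht c
    unfold sz at h1
    simp only at h1
    omega
  · rw [dif_neg h]
    omega

lemma del_lt {b : ℕ} {t : ℕ → ℕ} (hb : 4 ≤ b) (ht : Ok b t) {J : ℕ} {z : Fin J → ℕ × ℕ}
    (hz : z ∈ PP b t J) (i : ℕ) : del J (ext J z) i < b := by
  unfold del
  split_ifs with h1 h2
  · omega
  · exact ext_lt hb ht hz _
  · have := ext_lt hb ht hz (i - (J + 2))
    omega

lemma nn_lt {b : ℕ} {t : ℕ → ℕ} (hb : 4 ≤ b) (ht : Ok b t) {J : ℕ} {z : Fin J → ℕ × ℕ}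
    (hz : z ∈ PP b t J) : nn b J z < b ^ (2 * J + 2) := by
  rw [nn_eq]
  exact sum_lt (by omega) _ _ fun i _ => del_lt hb ht hz i

lemma nn_inj {b : ℕ} {t : ℕ → ℕ} (hb : 4 ≤ b) (ht : Ok b t) {J : ℕ} {z z' : Fin J → ℕ × ℕ}
    (hz : z ∈ PP b t J) (hz' : z' ∈ PP b t J) (h : nn b J z = nn b J z') : z = z' := by
  rw [nn_eq, nn_eq] at h
  have key := digits_eq (by omega) _ _ _ (fun i _ => del_lt hb ht hz i)
    (fun i _ => del_lt hb ht hz' i) h
  funext c
  have hc := c.2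
  have k1 := key (J + c + 2) (by omega)
  have k2 := key (J - c) (by omega)
  unfold del at k1 k2
  rw [if_neg (by omega), if_neg (by omega), if_neg (by omega), if_neg (by omega),
    show J + (c : ℕ) + 2 - (J + 2) = c by omega] at k1
  rw [if_neg (by omega), if_pos (by omega), if_neg (by omega), if_pos (by omega),
    show J - (J - (c : ℕ)) = c by omega] at k2
  unfold ext at k1 k2
  rw [dif_pos hc, dif_pos hc] at k1 k2
  have k1' : (z c).1 = (z' c).1 := k1
  have k2' : (z c).1 + 2 * (z c).2 = (z' c).1 + 2 * (z' c).2 := k2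
  exact Prod.ext k1' (by omega)

/-! ### the exponential sum -/

lemma pair_expand (s t n m : ℕ) (x : ℝ) : DD s (n * x) * DD t (m * x) =
    ∑ p ∈ range s ×ˢ range t, ee (((p.1 * n + p.2 * m : ℕ) : ℝ) * x) := by
  unfold DD
  rw [sum_mul_sum, ← sum_product']
  apply sum_congr rfl
  intro p _
  rw [← ls_ee_add]
  congr 1
  push_cast
  ring

lemma SS_expand (b : ℕ) (t : ℕ → ℕ) (J : ℕ) (x : ℝ) :
    ∏ c : Fin J, (DD (sz b t c) (fr b J c * x) * DD (t c) (lo b J c * x)) =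
      ∑ z ∈ PP b t J, ee (nn b J z * x) := by
  simp_rw [pair_expand]
  rw [prod_univ_sum]
  apply sum_congr rfl
  intro z _
  unfold nn
  push_cast
  rw [sum_mul]
  induction (univ : Finset (Fin J)) using Finset.induction_on with
  | empty => simp [ee]
  | insert a s ha ih => rw [prod_insert ha, sum_insert ha, ls_ee_add, ih]

/-- the number of digit vectors -/
noncomputable def NN (b : ℕ) (t : ℕ → ℕ) (J : ℕ) : ℝ := ∏ c ∈ range J, ((sz b t c : ℝ) * t c)

lemma card_PP (b : ℕ) (t : ℕ → ℕ) (J : ℕ) : ((PP b t J).card : ℝ) = NN b t J := by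
  unfold PP NN
  rw [Fintype.card_piFinset, ← Fin.prod_univ_eq_prod_range (fun c => (sz b t c : ℝ) * t c) J]
  push_cast
  apply prod_congr rfl
  intro c _
  rw [card_product, card_range, card_range]
  push_cast
  rfl

lemma NN_pos {b : ℕ} {t : ℕ → ℕ} (hb : 4 ≤ b) (ht : Ok b t) (J : ℕ) : 0 < NN b t J := by
  unfold NN
  apply prod_pos
  intro c _
  have h1 := ht c
  have h2 : 0 < sz b t c := by unfold sz; omega
  have h3 : 0 < t c := by omega
  positivity

lemma Fn_sq {b : ℕ} {t : ℕ → ℕ} (hb : 4 ≤ b) (ht : Ok b t) (J : ℕ) (x : ℝ) :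
    Fn b t J J x ^ 2 = ‖∑ z ∈ PP b t J, ee (nn b J z * x)‖ ^ 2 / NN b t J ^ 2 := by
  rw [← SS_expand, norm_prod, ← div_pow]
  congr 1
  unfold Fn NN
  rw [Fin.prod_univ_eq_prod_range
    (fun c => ‖DD (sz b t c) (fr b J c * x) * DD (t c) (lo b J c * x)‖) J, ← prod_div_distrib]
  apply prod_congr rfl
  intro c _
  unfold fa
  rw [ph_eq, ph_eq, norm_mul, div_mul_div_comm]

lemma fa_nonneg (b : ℕ) (t : ℕ → ℕ) (L c : ℕ) (x : ℝ) : 0 ≤ fa b t L c x :=
  mul_nonneg (ph_nonneg _ _) (ph_nonneg _ _)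

lemma Fn_add_int (b : ℕ) (t : ℕ → ℕ) (L J : ℕ) (x : ℝ) (k : ℤ) :
    Fn b t L J (x + k) = Fn b t L J x := by
  unfold Fn fa
  apply prod_congr rfl
  intro j _
  have h1 : (fr b L j : ℝ) * (x + k) = fr b L j * x + ((fr b L j * k : ℤ) : ℝ) := by
    push_cast; ring
  have h2 : (lo b L j : ℝ) * (x + k) = lo b L j * x + ((lo b L j * k : ℤ) : ℝ) := by
    push_cast; ring
  rw [h1, h2, ph_add_int, ph_add_int]

lemma Fn_scale {b : ℕ} {t : ℕ → ℕ} {L J : ℕ} (hJ : J ≤ L) (x : ℝ) :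
    Fn b t L J x = Fn b t J J ((b : ℝ) ^ (L - J) * x) := by
  unfold Fn fa
  apply prod_congr rfl
  intro c hc
  rw [mem_range] at hc
  have h1 : fr b L c = b ^ (L - J) * fr b J c := by
    unfold fr
    rw [mul_add, ← pow_add, ← pow_add]
    congr 2 <;> omega
  have h2 : lo b L c = b ^ (L - J) * lo b J c := by
    unfold lo
    rw [mul_left_comm, ← pow_add]
    congr 2
    omega
  rw [h1, h2]
  congr 2
  · push_cast; ring
  · push_cast; ring

/-- large sieve for the block -/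
lemma block_ls {b : ℕ} {t : ℕ → ℕ} (hb : 4 ≤ b) (ht : Ok b t) (J F : ℕ) :
    ∑ f ∈ Icc 1 F, ∑ a ∈ (range f).filter (fun a => a.Coprime f),
      ‖∑ z ∈ PP b t J, ee (nn b J z * ((a : ℝ) / f))‖ ^ 2 ≤
      6 * ((b ^ (2 * J + 2) : ℕ) + (F : ℝ) ^ 2) * NN b t J := by
  classical
  set P := PP b t J with hP
  set α : ℕ → ℂ := fun n => ∑ z ∈ P.filter (fun z => nn b J z + 1 = n), (1 : ℂ) with hα
  set N := b ^ (2 * J + 2) with hN
  have hmaps : ∀ z ∈ P, nn b J z + 1 ∈ Icc 1 N := by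
    intro z hz
    rw [mem_Icc]
    exact ⟨by omega, nn_lt hb ht hz⟩
  have key := additive_large_sieve N F α
  have h1 : ∑ n ∈ Icc 1 N, ‖α n‖ ^ 2 = NN b t J := by
    have h2 : ∀ n, ‖α n‖ ^ 2 = ∑ z ∈ P.filter (fun z => nn b J z + 1 = n), (1 : ℝ) := by
      intro n
      rw [hα]
      simp only
      rcases (P.filter (fun z => nn b J z + 1 = n)).eq_empty_or_nonempty with h | ⟨z, hz⟩
      · rw [h]; simp
      · have : P.filter (fun z => nn b J z + 1 = n) = {z} := by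
          apply eq_singleton_iff_unique_mem.2 ⟨hz, ?_⟩
          intro z' hz'
          rw [mem_filter] at hz hz'
          exact nn_inj hb ht hz'.1 hz.1 (by omega)
        rw [this]
        simp
    simp_rw [h2]
    rw [sum_fiberwise_of_maps_to hmaps (fun _ => (1 : ℝ)), sum_const, nsmul_eq_mul, mul_one,
      ← card_PP]
  rw [h1] at key
  refine le_trans (le_of_eq ?_) key
  apply sum_congr rfl
  intro f _
  apply sum_congr rfl
  intro a _
  congr 1
  have h4 : ∑ n ∈ Icc 1 N, α n * ee (n * a / f) =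
      ee ((a : ℝ) / f) * ∑ z ∈ P, ee (nn b J z * ((a : ℝ) / f)) := by
    rw [hα]
    simp only
    simp_rw [sum_mul]
    rw [← sum_fiberwise_of_maps_to hmaps, mul_sum]
    apply sum_congr rfl
    intro n _
    rw [mul_sum]
    apply sum_congr rfl
    intro z hz
    rw [mem_filter] at hz
    rw [← hz.2, one_mul, ← ls_ee_add]
    congr 1
    push_cast
    ring
  rw [h4, norm_mul, ls_norm_ee, one_mul]

lemma prod_inv_NN (b : ℕ) (t : ℕ → ℕ) (J : ℕ) :
    ∏ c ∈ range J, (1 / ((sz b t c : ℝ) * t c)) = 1 / NN b t J := by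
  unfold NN
  rw [prod_div_distrib, prod_const_one]

theorem partA {b : ℕ} {t : ℕ → ℕ} (hb : 4 ≤ b) (ht : Ok b t) {L J : ℕ} (hJL : J ≤ L) (Q : ℕ)
    (hQ : 1 ≤ Q) (h2 : b ^ J ≤ b * Q) : pts b Q (fun α => Fn b t L J α ^ 2) ≤
    12 * ((b : ℝ) ^ 5 + 4) * (Q : ℝ) ^ 2 * ∏ c ∈ range J, (1 / ((sz b t c : ℝ) * t c)) := by
  have hb0 : 0 < b := by omega
  have hbR : (1 : ℝ) ≤ b := by exact_mod_cast hb0
  have hNN := NN_pos hb ht J
  set F : ℝ → ℝ := fun x => Fn b t J J x ^ 2 with hF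
  have hper : ∀ (x : ℝ) (n : ℤ), F (x + n) = F x := by
    intro x n
    simp only [hF, Fn_add_int]
  have e1 : pts b Q (fun α => Fn b t L J α ^ 2) = pts b Q F := by
    unfold pts
    apply sum_congr rfl
    intro q hq
    rw [mem_filter] at hq
    rw [← dilate (coprime_b hq.2) (L - J) F hper]
    apply sum_congr rfl
    intro a _
    simp only [hF]
    rw [Fn_scale hJL]
  have e2 : pts b Q F ≤
      ∑ f ∈ Icc 1 (2 * Q), ∑ a ∈ (range f).filter (fun a => a.Coprime f), F ((a : ℝ) / f) := by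
    unfold pts
    apply sum_le_sum_of_subset_of_nonneg
    · intro q hq
      rw [mem_filter, mem_Ico] at hq
      rw [mem_Icc]; omega
    · intro q _ _
      exact sum_nonneg fun a _ => sq_nonneg _
  have e3 : ∑ f ∈ Icc 1 (2 * Q), ∑ a ∈ (range f).filter (fun a => a.Coprime f), F ((a : ℝ) / f) =
      (∑ f ∈ Icc 1 (2 * Q), ∑ a ∈ (range f).filter (fun a => a.Coprime f),
        ‖∑ z ∈ PP b t J, ee (nn b J z * ((a : ℝ) / f))‖ ^ 2) / NN b t J ^ 2 := by
    rw [sum_div]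
    apply sum_congr rfl
    intro f _
    rw [sum_div]
    apply sum_congr rfl
    intro a _
    simp only [hF]
    exact Fn_sq hb ht J _
  rw [e1, prod_inv_NN]
  refine e2.trans ?_
  rw [e3, div_le_iff₀ (by positivity)]
  refine (block_ls hb ht J (2 * Q)).trans ?_
  have h3 : (b : ℝ) ^ J ≤ b * Q := by exact_mod_cast h2
  have h5 : (((b ^ (2 * J + 2) : ℕ)) : ℝ) + ((2 * Q : ℕ) : ℝ) ^ 2 ≤
      2 * ((b : ℝ) ^ 5 + 4) * (Q : ℝ) ^ 2 := by
    push_cast
    have e : (b : ℝ) ^ (2 * J + 2) = (b : ℝ) ^ 2 * ((b : ℝ) ^ J) ^ 2 := by ring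
    rw [e]
    have h6 : ((b : ℝ) ^ J) ^ 2 ≤ (b * Q : ℝ) ^ 2 := pow_le_pow_left₀ (by positivity) h3 2
    have h7 : (b : ℝ) ^ 2 * ((b : ℝ) ^ J) ^ 2 ≤ (b : ℝ) ^ 2 * (b * Q : ℝ) ^ 2 :=
      mul_le_mul_of_nonneg_left h6 (by positivity)
    have h8 : (b : ℝ) ^ 4 ≤ (b : ℝ) ^ 5 := pow_le_pow_right₀ hbR (by norm_num)
    have h9 : (b : ℝ) ^ 2 * (b * Q : ℝ) ^ 2 = (b : ℝ) ^ 4 * (Q : ℝ) ^ 2 := by ring
    have h10 : (b : ℝ) ^ 4 * (Q : ℝ) ^ 2 ≤ (b : ℝ) ^ 5 * (Q : ℝ) ^ 2 :=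
      mul_le_mul_of_nonneg_right h8 (by positivity)
    have h11 : 0 ≤ (b : ℝ) ^ 5 * (Q : ℝ) ^ 2 := by positivity
    have h12 : 0 ≤ (Q : ℝ) ^ 2 := by positivity
    nlinarith
  calc 6 * (((b ^ (2 * J + 2) : ℕ) : ℝ) + ((2 * Q : ℕ) : ℝ) ^ 2) * NN b t J
      ≤ 6 * (2 * ((b : ℝ) ^ 5 + 4) * (Q : ℝ) ^ 2) * NN b t J := by gcongr
    _ = 12 * ((b : ℝ) ^ 5 + 4) * (Q : ℝ) ^ 2 * (1 / NN b t J) * NN b t J ^ 2 := by
        field_simp
        ring

theorem partB {b : ℕ} {t : ℕ → ℕ} (hb : 4 ≤ b) (ht : Ok b t) {L J : ℕ} (hJL : J ≤ L) (M : ℕ)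
    (hM : b ^ (2 * J + 3) ≤ M) (hc : M.Coprime b) : EM M (fun α => Fn b t L J α ^ 2) ≤
    ∏ c ∈ range J, (1 / ((sz b t c : ℝ) * t c)) := by
  classical
  have hb0 : 0 < b := by omega
  have hNN := NN_pos hb ht J
  have hm0 : 0 < M := lt_of_lt_of_le (by positivity) hM
  have hmR : (0 : ℝ) < M := by exact_mod_cast hm0
  set F : ℝ → ℝ := fun x => Fn b t J J x ^ 2 with hF
  have hper : ∀ (x : ℝ) (n : ℤ), F (x + n) = F x := by
    intro x n
    simp only [hF, Fn_add_int]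
  have e1 : ∑ a ∈ range M, Fn b t L J ((a : ℝ) / M) ^ 2 = ∑ a ∈ range M, F ((a : ℝ) / M) := by
    rw [← dilate_all hc (L - J) F hper]
    apply sum_congr rfl
    intro a _
    simp only [hF]
    rw [Fn_scale hJL]
  unfold EM
  rw [e1, prod_inv_NN]
  have e2 : ∑ a ∈ range M, F ((a : ℝ) / M) =
      (∑ a ∈ range M, ‖∑ z ∈ PP b t J, (((1 : ℝ)) : ℂ) *
        ee ((nn b J z : ℝ) * ((a : ℝ) / M))‖ ^ 2) / NN b t J ^ 2 := by
    rw [sum_div]
    apply sum_congr rfl
    intro a _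
    simp only [hF]
    rw [Fn_sq hb ht J]
    simp only [Complex.ofReal_one, one_mul]
  rw [e2, pars (PP b t J) M hm0 (fun _ => 1) (fun z => nn b J z)]
  have hlt : ∀ z ∈ PP b t J, nn b J z < M := by
    intro z hz
    have h1 := nn_lt hb ht hz
    have h2 : b ^ (2 * J + 2) ≤ b ^ (2 * J + 3) := Nat.pow_le_pow_right hb0 (by omega)
    omega
  have e3 : ∑ z ∈ PP b t J, ∑ z' ∈ PP b t J, (if (M : ℤ) ∣ ((nn b J z : ℕ) : ℤ) -
      ((nn b J z' : ℕ) : ℤ) then (1 : ℝ) * 1 else 0) = NN b t J := by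
    rw [← card_PP, card_eq_sum_ones, Nat.cast_sum]
    apply sum_congr rfl
    intro z hz
    have h1 : ∀ z' ∈ PP b t J, (if (M : ℤ) ∣ ((nn b J z : ℕ) : ℤ) - ((nn b J z' : ℕ) : ℤ)
        then (1 : ℝ) * 1 else 0) = if z = z' then 1 else 0 := by
      intro z' hz'
      have h2 : ((M : ℤ) ∣ ((nn b J z : ℕ) : ℤ) - ((nn b J z' : ℕ) : ℤ)) ↔ z = z' := by
        constructor
        · intro hd
          have h3 := hlt z hz
          have h4 := hlt z' hz'
          have h5 : ((nn b J z : ℕ) : ℤ) - ((nn b J z' : ℕ) : ℤ) = 0 := by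
            refine Int.eq_zero_of_abs_lt_dvd hd ?_
            rw [abs_lt]
            constructor <;> omega
          exact nn_inj hb ht hz hz' (by omega)
        · rintro rfl
          simp
      by_cases h6 : z = z'
      · rw [if_pos h6, if_pos (h2.2 h6), one_mul]
      · rw [if_neg h6, if_neg (fun h => h6 (h2.1 h))]
    rw [sum_congr rfl h1, sum_ite_eq, if_pos hz]
    simp
  rw [e3]
  apply le_of_eq
  field_simp

/-- module LS -/
theorem thm : S_LS := fun _ _ hb ht _ _ hJ =>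
  ⟨fun Q hQ h => partA hb ht hJ Q hQ h, fun M hM hc => partB hb ht hJ M hM hc⟩

end Pool.Agent.Zk85.NP2
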